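import Mathlib
import Pool.Agent.Q99.SB.Defs
import Pool.Agent.Q99.SB.Main

set_option autoImplicit false

/-!
# A Hilbert space inside `SNA(M)` for a space `M` with the small ball property

* Every separable Banach space `X` is the sum `A + B` of two sets with the small ball property: with a
  dense sequence `d`, every `u` is a series `∑ d (k i)` in which the error after `n + 1` terms is at
  most `2^{-(k 0 + 1) - ... - (k (n-1) + 1)}`; let `A` be the set of sums of the terms with even index
  and `B` the set of sums of the terms with odd index. The error of the partial sums up to `n` of the
  terms of one parity is bounded by a quantity which tends to zero along the finite sequences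
  `(k 0, ..., k (n - 1))`, since the next term of this parity is controlled by all of them.
* For `X = ℓ₂` let `M = A ∪ (-B)`. Then `M - M = X`, hence every functional of `X` attains its norm
  strongly on `M`, and `ℓ₂ ⊂ SNA(M)` isometrically.
* Infinite-dimensional Hilbert spaces are not isomorphically polyhedral: a separable polyhedral Banach
  space has a countable boundary consisting of functionals which agree with the norm on some ball
  (Baire category), and `ℓ₂` with a polyhedral norm cannot have one, by a greedy argument.
-/

namespace Pool.Agent.Results.MP_8cd1d0_an.HilbertSubspace

open Q99.SB Pool.Agent.H266R3.LF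

/-- There is a metric space `M` with the small ball property and a closed linear subspace `Y` of
`Lip_0(M)` contained in `SNA(M)` which is isometric to `ℓ₂` and is not isomorphically polyhedral. -/
theorem result : ∃ (M : Type) (_ : MetricSpace M) (o : M), Nontrivial M ∧ SmallBall M ∧
    ∃ Y : Submodule ℝ (Lip0 M o), IsClosed (Y : Set (Lip0 M o)) ∧ (∀ f ∈ Y, AttainsStrongly f) ∧
      Nonempty (lp (fun _ : ℕ => ℝ) 2 ≃ₗᵢ[ℝ] Y) ∧ ¬ IsoPolyhedral Y := by
  obtain ⟨o, h⟩ := main (H := l2) l2_infinite
  exact ⟨MM l2, inferInstance, o, h⟩

end Pool.Agent.Results.MP_8cd1d0_an.HilbertSubspace
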